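import Mathlib
import Pool.Agent.Lib.helper24.Succ

set_option autoImplicit false

open Set Filter Topology Cardinal
open Pool.Agent.Lib.helper24.Succ

namespace Pool.Agent.H.MP_41e59e_gt

abbrev I : Type := W continuum

def GS : AddSubgroup (Lex (I → ℤ)) where
  carrier := {f | {i | f i ≠ 0}.Countable}
  zero_mem' := by
    show {i : I | (0 : ℤ) ≠ 0}.Countable
    simp
  add_mem' := by
    intro f g hf hg
    refine (Countable.union hf hg).mono ?_
    intro i hi
    by_contra h
    simp only [mem_union, mem_ofPred_eq, not_or, not_not] at h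
    apply hi
    show f i + g i = 0
    rw [h.1, h.2]; rfl
  neg_mem' := by
    intro f hf
    refine Countable.mono ?_ hf
    intro i hi h
    apply hi
    show - f i = 0
    rw [h]; rfl

def G : Type := GS

noncomputable instance : AddCommGroup G := inferInstanceAs (AddCommGroup GS)
noncomputable instance : LinearOrder G := inferInstanceAs (LinearOrder GS)
instance : IsOrderedAddMonoid G := inferInstanceAs (IsOrderedAddMonoid GS)
noncomputable instance : TopologicalSpace G := Preorder.topology G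
instance : OrderTopology G := ⟨rfl⟩

def ev (g : G) (i : I) : ℤ := (show GS from g).1 i

lemma ev_add (g h : G) (i : I) : ev (g + h) i = ev g i + ev h i := rfl
lemma ev_sub (g h : G) (i : I) : ev (g - h) i = ev g i - ev h i := rfl
lemma ev_neg (g : G) (i : I) : ev (-g) i = - ev g i := rfl
lemma ev_zero (i : I) : ev 0 i = 0 := rfl
lemma ev_ext {g h : G} (H : ∀ i, ev g i = ev h i) : g = h := Subtype.ext (funext H)
lemma ev_count (g : G) : {i | ev g i ≠ 0}.Countable := (show GS from g).2
lemma lt_def {g h : G} : g < h ↔ ∃ i, (∀ j < i, ev g j = ev h j) ∧ ev g i < ev h i := Iff.rfl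

def mk (f : I → ℤ) (hf : {i | f i ≠ 0}.Countable) : G := (⟨f, hf⟩ : GS)
lemma ev_mk (f : I → ℤ) (hf : {i | f i ≠ 0}.Countable) (i : I) : ev (mk f hf) i = f i := rfl

open Classical in
noncomputable def e (a : I) : G := mk (fun i => if i = a then 1 else 0)
  ((countable_singleton a).mono fun i hi => by
    by_contra h
    exact hi (if_neg h))

lemma e_self (a : I) : ev (e a) a = 1 := by simp [e, ev_mk]
lemma e_ne {a i : I} (h : i ≠ a) : ev (e a) i = 0 := by simp [e, ev_mk, h]
lemma e_pos (a : I) : 0 < e a :=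
  lt_def.2 ⟨a, fun j hj => by rw [e_ne hj.ne, ev_zero], by rw [e_self, ev_zero]; exact one_pos⟩

instance : Nontrivial G := ⟨⟨0, e (Classical.arbitrary I), (e_pos _).ne⟩⟩

def V (g : G) (a : I) : Set G := {h | ∀ i < a, ev h i = ev g i}

lemma V_mem (g : G) (a : I) : V g a ∈ 𝓝 g := by
  refine mem_of_superset (Ioo_mem_nhds (sub_lt_self g (e_pos a)) (lt_add_of_pos_right g (e_pos a)))
    ?_
  intro h hh i
  induction i using WellFoundedLT.induction with
  | ind i ih =>
    intro hi
    have h0 : ∀ j ≤ i, ev (e a) j = 0 := fun j hj => e_ne (hj.trans_lt hi).ne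
    rcases lt_trichotomy (ev h i) (ev g i) with h1 | h1 | h1
    · refine absurd hh.1 (not_lt.2 (le_of_lt (lt_def.2 ⟨i, fun j hj => ?_, ?_⟩)))
      · rw [ev_sub, h0 j hj.le, sub_zero, ih j hj (hj.trans hi)]
      · rw [ev_sub, h0 i le_rfl, sub_zero]; exact h1
    · exact h1
    · refine absurd hh.2 (not_lt.2 (le_of_lt (lt_def.2 ⟨i, fun j hj => ?_, ?_⟩)))
      · rw [ev_add, h0 j hj.le, add_zero, ih j hj (hj.trans hi)]
      · rw [ev_add, h0 i le_rfl, add_zero]; exact h1

lemma exists_V {g : G} {U : Set G} (hU : U ∈ 𝓝 g) : ∃ a, V g a ⊆ U := by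
  obtain ⟨l, u, hg, hsub⟩ := mem_nhds_iff_exists_Ioo_subset.1 hU
  obtain ⟨i, hi, hi'⟩ := lt_def.1 hg.1
  obtain ⟨j, hj, hj'⟩ := lt_def.1 hg.2
  obtain ⟨a, ha⟩ := exists_gt aleph0_le_continuum (max i j)
  obtain ⟨hia, hja⟩ := max_lt_iff.1 ha
  refine ⟨a, fun h hh => hsub ⟨lt_def.2 ⟨i, fun k hk => ?_, ?_⟩, lt_def.2 ⟨j, fun k hk => ?_, ?_⟩⟩⟩
  · rw [hi k hk, hh k (hk.trans hia)]
  · rw [hh i hia]; exact hi'
  · rw [← hj k hk, hh k (hk.trans hja)]
  · rw [hh j hja]; exact hj'

lemma cont_ev (i : I) : Continuous fun g : G => ev g i := by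
  refine continuous_iff_continuousAt.2 fun g => ?_
  obtain ⟨a, ha⟩ := exists_gt aleph0_le_continuum i
  refine tendsto_const_nhds.congr' ?_
  filter_upwards [V_mem g a] with h hh
  exact (hh i ha).symm

lemma totDisc : TotallyDisconnectedSpace G := by
  constructor
  refine isTotallyDisconnected_of_image (f := fun (g : G) (i : I) => ev g i)
    (continuous_pi cont_ev).continuousOn (fun g h H => ev_ext fun i => congrFun H i) ?_
  exact isTotallyDisconnected_of_totallyDisconnectedSpace _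

lemma not_sep : ¬ TopologicalSpace.SeparableSpace G := by
  rintro ⟨D, hD, hd⟩
  obtain ⟨a, ha⟩ := bdd_countable aleph0_le_continuum (⋃ g ∈ D, {i | ev g i ≠ 0})
    (hD.biUnion fun g _ => ev_count g)
  obtain ⟨b, hb⟩ := exists_gt aleph0_le_continuum a
  obtain ⟨g, hg, hgD⟩ := mem_closure_iff_nhds.1 (hd (e a)) _ (V_mem (e a) b)
  have h1 : ev g a ≠ 0 := by rw [hg a hb, e_self]; exact one_ne_zero
  exact lt_irrefl a (ha a (mem_biUnion hgD h1))

lemma not_gdelta : ¬ IsGδ ({0} : Set G) := by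
  rintro ⟨T, hT, hc, hs⟩
  have : ∀ t : T, ∃ a, V 0 a ⊆ t.1 := fun t =>
    exists_V ((hT _ t.2).mem_nhds (by
      have : (0 : G) ∈ ⋂₀ T := hs ▸ mem_singleton 0
      exact this _ t.2))
  choose α hα using this
  haveI := hc.to_subtype
  obtain ⟨b, hb⟩ := bdd_range aleph0_le_continuum (J := T)
    (mk_le_aleph0.trans aleph0_le_continuum) α
  have : e b ∈ ⋂₀ T := fun t ht => hα ⟨t, ht⟩ fun i hi => by
    rw [e_ne (hi.trans (hb _)).ne, ev_zero]
  rw [← hs] at this
  exact (e_pos b).ne' this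

lemma card_small (b : I) : #{g : G // ∀ i, ev g i ≠ 0 → i < b} ≤ continuum := by
  classical
  have : ∀ g : {g : G // ∀ i, ev g i ≠ 0 → i < b}, ∃ f : ℕ → Option (Iio b × ℤ),
      ∀ i n, n ≠ 0 → (ev g.1 i = n ↔ ∃ k h, f k = some (⟨i, h⟩, n)) := by
    rintro ⟨g, hg⟩
    have hc : {p : Option (Iio b × ℤ) | ∀ q, p = some q → ev g q.1.1 = q.2 ∧ q.2 ≠ 0}.Countable := by
      haveI := (ev_count g).to_subtype
      refine (countable_range (fun o : Option {i | ev g i ≠ 0} =>
        o.map fun i => ((⟨i.1, hg _ i.2⟩ : Iio b), ev g i.1))).mono ?_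
      intro p hp
      cases p with
      | none => exact ⟨none, rfl⟩
      | some q =>
        obtain ⟨h1, h2⟩ := hp q rfl
        refine ⟨some ⟨q.1.1, by rw [mem_ofPred_eq, h1]; exact h2⟩, ?_⟩
        simp [h1]
    obtain ⟨f, hf⟩ := hc.exists_eq_range ⟨none, by simp⟩
    refine ⟨f, fun i n hn => ⟨fun h => ?_, ?_⟩⟩
    · have : some ((⟨i, hg i (h ▸ hn)⟩ : Iio b), n) ∈ range f := by
        rw [← hf]
        intro q hq
        cases hq
        exact ⟨h, hn⟩
      obtain ⟨k, hk⟩ := this
      exact ⟨k, _, hk⟩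
    · rintro ⟨k, h, hk⟩
      have : f k ∈ range f := ⟨k, rfl⟩
      rw [← hf] at this
      exact (this _ hk).1
  choose F hF using this
  have hinj : Function.Injective F := by
    intro g h H
    refine Subtype.ext (ev_ext fun i => ?_)
    by_cases h1 : ev g.1 i = 0
    · by_cases h2 : ev h.1 i = 0
      · rw [h1, h2]
      · have := (hF h i _ h2).1 rfl
        rw [← H] at this
        exact (hF g i _ h2).2 this
    · have := (hF g i _ h1).1 rfl
      rw [H] at this
      exact ((hF h i _ h1).2 this).symm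
  refine (mk_le_of_injective hinj).trans ?_
  rw [← power_def, mk_nat]
  refine le_trans (power_le_power_right ?_) continuum_power_aleph0.le
  rw [mk_option, mk_prod, lift_id, lift_id]
  refine add_le_of_le aleph0_le_continuum (mul_le_of_le aleph0_le_continuum (card_Iio b) ?_)
    (one_le_aleph0.trans aleph0_le_continuum)
  exact mk_le_aleph0.trans aleph0_le_continuum

/-- a set without accumulation points has bounded supports -/
lemma bdd_supp (D : Set G) (hD : ∀ g : G, ∃ U ∈ 𝓝 g, ∀ d ∈ D, d ∈ U → d = g) :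
    ∃ b, ∀ d ∈ D, ∀ i, ev d i ≠ 0 → i < b := by
  classical
  have h1 : ∀ g : G, ∃ a, ∀ d ∈ D, d ∈ V g a → d = g := fun g => by
    obtain ⟨U, hU, h⟩ := hD g
    obtain ⟨a, ha⟩ := exists_V hU
    exact ⟨a, fun d hd h' => h d hd (ha h')⟩
  choose α hα using h1
  have h2 : ∀ b : I, ∃ c, ∀ g : G, (∀ i, ev g i ≠ 0 → i < b) → α g < c := fun b => by
    obtain ⟨c, hc⟩ := bdd_range aleph0_le_continuum (card_small b) fun g => α g.1
    exact ⟨c, fun g hg => hc ⟨g, hg⟩⟩
  choose F hF using h2
  obtain ⟨A, ⟨b, hb⟩, hA⟩ := exists_closed aleph0_lt_continuum F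
  refine ⟨b, fun d hd i hi => ?_⟩
  have hr : {i | (if i ∈ A then ev d i else 0) ≠ 0}.Countable :=
    (ev_count d).mono fun i hi (h : ev d i = 0) => hi (by simp [h])
  obtain ⟨c, hc, hc'⟩ := hA _ hr (fun i hi => by
    by_contra h
    exact hi (if_neg h))
  have h3 := hF c (mk _ hr) (fun i hi => hc hi)
  have h4 : d = mk _ hr := hα _ d hd fun j hj => by
    rw [ev_mk, if_pos (hc' (hj.trans h3))]
  rw [h4, ev_mk] at hi
  refine hb i ?_
  by_contra h
  exact hi (if_neg h)

theorem no_suitable (S : Set G) (h1 : DiscreteTopology S) (h2 : IsClosed (S ∪ {0})) :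
    ¬ Dense (AddSubgroup.closure S : Set G) := by
  classical
  intro h3
  have hb : ∀ a : I, ∃ b, a < b ∧ ∀ s ∈ S, (∃ i ≤ a, ev s i ≠ 0) → ∀ i, ev s i ≠ 0 → i < b := by
    intro a
    obtain ⟨a', ha'⟩ := exists_gt aleph0_le_continuum a
    obtain ⟨b, hb⟩ := bdd_supp {s ∈ S | ∃ i ≤ a, ev s i ≠ 0} (by
      intro g
      by_cases hg : g ∈ S
      · have := (discreteTopology_subtype_iff'.1 h1) g hg
        obtain ⟨U, hU, hUS⟩ := this
        refine ⟨U, hU.mem_nhds (by
          have : g ∈ U ∩ S := hUS ▸ mem_singleton g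
          exact this.1), fun d hd hdU => ?_⟩
        have : d ∈ U ∩ S := ⟨hdU, hd.1⟩
        rwa [hUS] at this
      · by_cases hg0 : g = 0
        · refine ⟨V g a', V_mem g a', fun d hd hdU => ?_⟩
          obtain ⟨-, i, hi, hi'⟩ := hd
          exact absurd (by rw [hdU i (hi.trans_lt ha'), hg0, ev_zero]) hi'
        · refine ⟨(S ∪ {0})ᶜ, h2.isOpen_compl.mem_nhds (by simp [hg, hg0]), fun d hd hdU => ?_⟩
          exact absurd (Or.inl hd.1) hdU)
    refine ⟨max a' b, lt_max_of_lt_left ha', fun s hs h i hi => lt_max_of_lt_right (hb s ⟨hs, h⟩ i hi)⟩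
  choose F hF hF' using hb
  let γ : ℕ → I := fun n => F^[n] (Classical.arbitrary I)
  have hγ : ∀ n, γ (n + 1) = F (γ n) := fun n => Function.iterate_succ_apply' F n _
  have hmono : StrictMono γ := strictMono_nat_of_lt_succ fun n => by rw [hγ]; exact hF _
  have hx : {i | (if i ∈ range γ then (1 : ℤ) else 0) ≠ 0}.Countable :=
    (countable_range γ).mono fun i hi => by
      by_contra h
      exact hi (if_neg h)
  obtain ⟨μ, hμ⟩ := bdd_range aleph0_le_continuum (J := ℕ)
    (mk_le_aleph0.trans aleph0_le_continuum) γ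
  obtain ⟨g, hg, hgS⟩ := mem_closure_iff_nhds.1 (h3 (mk _ hx)) _ (V_mem _ μ)
  have key : ∀ g ∈ AddSubgroup.closure S, ∀ᶠ n in atTop, ev g (γ n) = 0 := by
    intro g hg
    induction hg using AddSubgroup.closure_induction with
    | mem s hs =>
      by_cases h : ∃ n, ev s (γ n) ≠ 0
      · obtain ⟨n, hn⟩ := h
        filter_upwards [eventually_ge_atTop (n + 1)] with m hm
        by_contra h'
        have := hF' (γ n) s hs ⟨γ n, le_rfl, hn⟩ _ h'
        rw [← hγ] at this
        exact absurd (hmono.monotone hm) (not_le.2 this)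
      · push Not at h
        exact Eventually.of_forall h
    | zero => exact Eventually.of_forall fun n => rfl
    | add x y _ _ hx hy =>
      filter_upwards [hx, hy] with n h1 h2
      rw [ev_add, h1, h2, add_zero]
    | neg x _ hx =>
      filter_upwards [hx] with n h1
      rw [ev_neg, h1, neg_zero]
  obtain ⟨n, hn⟩ := (key g hgS).exists
  rw [hg _ (hμ n), ev_mk, if_pos ⟨n, rfl⟩] at hn
  exact one_ne_zero hn

end Pool.Agent.H.MP_41e59e_gt
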